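import Mathlib
import Pool.Agent.H15.G.R_seed8.H519R3.AC.Chain
import Pool.Agent.H15.G.R_seed8.H932R5.Phases

set_option autoImplicit false

/-!
# All phases together, in every characteristic
-/

namespace Pool.Agent.H519R3.AC

open MvPolynomial Pool.Agent.H932R5

universe u v

variable {K : Type u} [Field K] {E : ℕ}

/-- All phases, for emptiness. -/
theorem FFull.phases [Infinite K] {𝓕 : Fam.{u, v} K E} {L μ S c : ℝ}
    (hrat : ∀ E t : ℕ, t < E → ∃ σ, Up (L ^ (E - 1 - t)) σ ∧ σ ≤ L ^ (E + 1 - t) ∧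
      Real.sqrt (L ^ (E + 1 - t) / σ) ≤ μ)
    (hL : 1 ≤ L) (hμ : 1 ≤ μ) (hS : 0 < S)
    (hF : FFull 𝓕 (Sx (Wt E 0 S L 1) c)) (t : ℕ) (ht : t ≤ E) :
    FFull 𝓕 (Sx (Wt E t S L (μ ^ t)) c) := by
  induction t with
  | zero =>
    rw [pow_zero]
    exact hF
  | succ t ih =>
    obtain ⟨σ, h1, h2, h3⟩ := hrat E t ht
    refine FFull.phase ht hS hL (one_le_pow₀ hμ) h1 h2 ?_ (ih (by omega))
    rw [pow_succ]
    exact mul_le_mul_of_nonneg_left h3 (by positivity)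

/-- All phases, for ranks. -/
theorem FRk.phases [Infinite K] {𝓕 : Fam.{u, v} K E} {N : ℕ} {L ν S c : ℝ}
    (hrat : ∀ E t : ℕ, t < E → ∃ σ, Up (L ^ (E - 1 - t)) σ ∧ σ ≤ L ^ (E + 1 - t) ∧
      ν ≤ Real.sqrt (σ / L ^ (E + 1 - t)))
    (hL : 1 ≤ L) (hν0 : 0 < ν) (hν : ν ≤ 1) (hS : 0 < S)
    (hF : FRk 𝓕 (Sx (Wt E 0 S L 1) c) N) (t : ℕ) (ht : t ≤ E) :
    FRk 𝓕 (Sx (Wt E t S L (ν ^ t)) (c + t * (L ^ (E + 1) / S))) N := by
  induction t with
  | zero =>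
    rw [pow_zero]
    simpa using hF
  | succ t ih =>
    obtain ⟨σ, h1, h2, h3⟩ := hrat E t ht
    have h4 := FRk.phase ht hS hL (pow_pos hν0 t) (pow_le_one₀ hν0.le hν)
      (ν' := ν ^ (t + 1)) (by positivity) h1 h2 (by
        rw [pow_succ]
        exact mul_le_mul_of_nonneg_left h3 (by positivity)) (ih (by omega))
    have e : c + (t : ℝ) * (L ^ (E + 1) / S) + L ^ (E + 1) / S =
        c + ((t + 1 : ℕ) : ℝ) * (L ^ (E + 1) / S) := by
      push_cast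
      ring
    rw [e] at h4
    exact h4

/-- **Emptiness.** -/
theorem full_main [Infinite K] {𝓕 : Fam.{u, v} K E} {n M : ℕ}
    (hbase : FFull 𝓕 {p : Fin (E + 1) →₀ ℕ | p 0 + n * ∑ j : Fin E, p j.succ < M}) {L μ : ℝ}
    (hrat : ∀ E t : ℕ, t < E → ∃ σ, Up (L ^ (E - 1 - t)) σ ∧ σ ≤ L ^ (E + 1 - t) ∧
      Real.sqrt (L ^ (E + 1 - t) / σ) ≤ μ)
    (hL : 1 ≤ L) (hμ : 1 ≤ μ) (hn : L ^ (E + 1) = n) {d : ℕ}
    (hd : μ ^ E * L ^ E * d < M) : FFull 𝓕 (Td E d) := by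
  have hM0 : (0 : ℝ) < M := lt_of_le_of_lt (by positivity) hd
  obtain ⟨S, hS⟩ : ∃ S : ℝ, S = max (μ ^ E * L ^ E * d) (M / 2) := ⟨_, rfl⟩
  have hS1 : μ ^ E * L ^ E * d ≤ S := by rw [hS]; exact le_max_left _ _
  have hS2 : (M : ℝ) / 2 ≤ S := by rw [hS]; exact le_max_right _ _
  have hSM : S < M := by
    rw [hS]
    exact max_lt hd (by linarith)
  have hS0 : 0 < S := by linarith
  have h0 : FFull 𝓕 (Sx (Wt E 0 S L 1) 1) := by
    refine hbase.mono fun p hp => ?_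
    rw [mem_Sx, sum_Wt_zero, div_le_one hS0, hn] at hp
    have h1 : (((p 0 + n * ∑ j : Fin E, p j.succ : ℕ)) : ℝ) < M := by
      push_cast at hp ⊢
      linarith
    have h2 : p 0 + n * ∑ j : Fin E, p j.succ < M := by exact_mod_cast h1
    exact h2
  have h1 := FFull.phases hrat hL hμ hS0 h0 E le_rfl
  refine h1.mono fun p hp => ?_
  have hp : Finsupp.degree p ≤ d := hp
  rw [mem_Sx, sum_Wt_last]
  have h2 : ((Finsupp.degree p : ℕ) : ℝ) ≤ d := by exact_mod_cast hp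
  have h3 : μ ^ E * L ^ E / S * ((Finsupp.degree p : ℕ) : ℝ) ≤ μ ^ E * L ^ E / S * d :=
    mul_le_mul_of_nonneg_left h2 (by positivity)
  refine h3.trans ?_
  rw [div_mul_eq_mul_div, div_le_one hS0]
  exact hS1

/-- **Independence of the conditions.** -/
theorem rk_main [Infinite K] {𝓕 : Fam.{u, v} K E} {n m : ℕ} (hbase : FFull 𝓕 (M0 E n m))
    (hm : 0 < m) {L ν : ℝ}
    (hrat : ∀ E t : ℕ, t < E → ∃ σ, Up (L ^ (E - 1 - t)) σ ∧ σ ≤ L ^ (E + 1 - t) ∧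
      ν ≤ Real.sqrt (σ / L ^ (E + 1 - t)))
    (hL : 1 ≤ L) (hν0 : 0 < ν) (hν : ν ≤ 1) (hn : L ^ (E + 1) = n) {d : ℕ}
    (hd : L * (m + E) ≤ ν ^ E * d) :
    FRk 𝓕 (Td E d) (n * (m + E).choose (E + 1)) := by
  have hL0 : 0 < L := by linarith
  have hnR : (0 : ℝ) < n := by rw [← hn]; positivity
  have hn0 : 0 < n := by exact_mod_cast hnR
  have hmR : (0 : ℝ) < m := by exact_mod_cast hm
  obtain ⟨S, hS⟩ : ∃ S : ℝ, S = n * m := ⟨_, rfl⟩
  have hS0 : 0 < S := by rw [hS]; positivity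
  have h0 : FRk 𝓕 (Sx (Wt E 0 S L 1) 1) (n * (m + E).choose (E + 1)) := by
    obtain ⟨T, hT, hTc⟩ := M0_equiv (E := E) hn0 m
    have h1 := hbase
    rw [← hT] at h1
    have h2 := h1.rk
    rw [hTc, hT] at h2
    refine h2.mono fun p hp => ?_
    have hp : p 0 + n * ∑ j : Fin E, p j.succ < n * m := hp
    rw [mem_Sx, sum_Wt_zero, div_le_one hS0, hn, hS]
    exact_mod_cast hp.le
  have h1 := FRk.phases hrat hL hν0 hν hS0 h0 E le_rfl
  refine h1.mono fun p hp => ?_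
  rw [mem_Sx, sum_Wt_last, hn] at hp
  show Finsupp.degree p ≤ d
  have hLE : L ^ E * L = n := by rw [← hn, pow_succ]
  have h2 : ν ^ E * L ^ E * ((Finsupp.degree p : ℕ) : ℝ) ≤ n * (m + E) := by
    have h3 : (1 + (E : ℝ) * (n / S)) * S = n * (m + E) := by
      rw [hS]
      field_simp
    rw [div_mul_eq_mul_div, div_le_iff₀ hS0, h3] at hp
    exact hp
  have h4 : L ^ E * (ν ^ E * ((Finsupp.degree p : ℕ) : ℝ)) ≤ L ^ E * (ν ^ E * d) := by
    calc L ^ E * (ν ^ E * ((Finsupp.degree p : ℕ) : ℝ)) =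
        ν ^ E * L ^ E * ((Finsupp.degree p : ℕ) : ℝ) := by ring
      _ ≤ n * (m + E) := h2
      _ = L ^ E * (L * (m + E)) := by rw [← hLE]; ring
      _ ≤ L ^ E * (ν ^ E * d) := mul_le_mul_of_nonneg_left hd (by positivity)
  have h5 := le_of_mul_le_mul_left h4 (by positivity)
  have h6 := le_of_mul_le_mul_left h5 (by positivity)
  exact_mod_cast h6

end Pool.Agent.H519R3.AC
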