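import Mathlib
import Pool.Agent.H15.G.R_seed8.H519R3.AC.Points

set_option autoImplicit false

/-!
# Waldschmidt constants of generic points in the plane
-/

namespace Pool.Agent.H519R3.AC

open MvPolynomial Pool.Agent.H932R5 Filter Topology

universe u

variable {k : Type u} [Field k] {r : ℕ}

theorem hI_plane (p : Fin 2 → k) : (hI (E := 1) p : Ideal (MvPolynomial (Fin 3) k)) =
    Ideal.span {X 1 - C (p 0) * X 0, X 2 - C (p 1) * X 0} := by
  unfold hI
  congr 1
  ext f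
  simp only [Set.mem_range, Set.mem_insert_iff, Set.mem_singleton_iff]
  constructor
  · rintro ⟨j, rfl⟩
    fin_cases j
    · left; rfl
    · right; rfl
  · rintro (rfl | rfl)
    · exact ⟨0, rfl⟩
    · exact ⟨1, rfl⟩

/-- There is a nonzero form of degree `d` vanishing to order `m` at the points. -/
def HasForm (P : Fin r → Fin 2 → k) (m d : ℕ) : Prop :=
  ∃ F : MvPolynomial (Fin 3) k, F.IsHomogeneous d ∧ F ≠ 0 ∧
    ∀ i, F ∈ (Ideal.span {X 1 - C (P i 0) * X 0, X 2 - C (P i 1) * X 0} :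
      Ideal (MvPolynomial (Fin 3) k)) ^ m

theorem hasForm_iff (P : Fin r → Fin 2 → k) (m d : ℕ) :
    HasForm P m d ↔ Vd (E := 1) d (fun _ : Fin r => m) P ≠ ⊥ := by
  rw [Submodule.ne_bot_iff]
  unfold HasForm Vd
  constructor
  · rintro ⟨F, h1, h2, h3⟩
    refine ⟨F, ?_, h2⟩
    rw [Submodule.mem_inf, mem_homogeneousSubmodule, Submodule.restrictScalars_mem,
      Ideal.mem_iInf]
    refine ⟨h1, fun i => ?_⟩
    rw [hI_plane]
    exact h3 i
  · rintro ⟨F, h1, h2⟩
    rw [Submodule.mem_inf, mem_homogeneousSubmodule, Submodule.restrictScalars_mem,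
      Ideal.mem_iInf] at h1
    refine ⟨F, h1.1, h2, fun i => ?_⟩
    rw [← hI_plane]
    exact h1.2 i

theorem hasForm_mul {P : Fin r → Fin 2 → k} {m m' d d' : ℕ} (h : HasForm P m d)
    (h' : HasForm P m' d') : HasForm P (m + m') (d + d') := by
  obtain ⟨F, h1, h2, h3⟩ := h
  obtain ⟨G, g1, g2, g3⟩ := h'
  refine ⟨F * G, h1.mul g1, mul_ne_zero h2 g2, fun i => ?_⟩
  rw [pow_add]
  exact Ideal.mul_mem_mul (h3 i) (g3 i)

theorem hasForm_of_large (P : Fin r → Fin 2 → k) {m d : ℕ}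
    (h : Real.sqrt r * (m + 1) ≤ d) : HasForm P m d := by
  rw [hasForm_iff]
  intro h0
  have h1 := finrank_ge (E := 1) d (fun _ : Fin r => m) P
  rw [h0, finrank_bot, Finset.sum_const, Finset.card_univ, Fintype.card_fin, smul_eq_mul] at h1
  have h2 : (((d + 1 + 1).choose (1 + 1) : ℕ) : ℝ) ≤ ((r * (m + 1).choose (1 + 1) + 0 : ℕ) : ℝ) := by
    exact_mod_cast h1
  push_cast at h2
  have e1 : (((d + 1 + 1).choose (1 + 1) : ℕ) : ℝ) = ((d : ℝ) + 2) * (d + 1) / 2 := by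
    rw [Nat.cast_choose_two]
    push_cast
    ring
  have e2 : (((m + 1).choose (1 + 1) : ℕ) : ℝ) = ((m : ℝ) + 1) * m / 2 := by
    rw [Nat.cast_choose_two]
    push_cast
    ring
  rw [e1, e2] at h2
  have h3 : (0 : ℝ) ≤ Real.sqrt r * (m + 1) := by positivity
  have h4 := mul_le_mul h h h3 (Nat.cast_nonneg d)
  have h5 : Real.sqrt r * (m + 1) * (Real.sqrt r * (m + 1)) = r * ((m : ℝ) + 1) ^ 2 := by
    have : Real.sqrt r * Real.sqrt r = r := Real.mul_self_sqrt (Nat.cast_nonneg r)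
    calc Real.sqrt r * (m + 1) * (Real.sqrt r * (m + 1)) =
        (Real.sqrt r * Real.sqrt r) * ((m : ℝ) + 1) ^ 2 := by ring
      _ = _ := by rw [this]
  rw [h5] at h4
  have h6 : (0 : ℝ) ≤ r := Nat.cast_nonneg r
  have h7 : (0 : ℝ) ≤ d := Nat.cast_nonneg d
  have h8 : (0 : ℝ) ≤ m := Nat.cast_nonneg m
  nlinarith [mul_nonneg h6 h8]

/-- The least degree of a nonzero form vanishing to order at least `m`. -/
noncomputable def alp (P : Fin r → Fin 2 → k) (m : ℕ) : ℕ := sInf {d | HasForm P m d}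

theorem alp_nonempty (P : Fin r → Fin 2 → k) (m : ℕ) : {d | HasForm P m d}.Nonempty := by
  obtain ⟨d, hd⟩ := exists_nat_ge (Real.sqrt r * (m + 1))
  exact ⟨d, hasForm_of_large P hd⟩

theorem hasForm_alp (P : Fin r → Fin 2 → k) (m : ℕ) : HasForm P m (alp P m) :=
  Nat.sInf_mem (alp_nonempty P m)

theorem alp_le {P : Fin r → Fin 2 → k} {m d : ℕ} (h : HasForm P m d) : alp P m ≤ d :=
  Nat.sInf_le h

theorem alp_le_sqrt (P : Fin r → Fin 2 → k) (m : ℕ) :
    (alp P m : ℝ) ≤ Real.sqrt r * (m + 1) + 1 := by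
  have h1 : alp P m ≤ ⌈Real.sqrt r * ((m : ℝ) + 1)⌉₊ :=
    alp_le (hasForm_of_large P (Nat.le_ceil _))
  have h2 : ((⌈Real.sqrt r * ((m : ℝ) + 1)⌉₊ : ℕ) : ℝ) < Real.sqrt r * (m + 1) + 1 :=
    Nat.ceil_lt_add_one (by positivity)
  have h3 : (alp P m : ℝ) ≤ ((⌈Real.sqrt r * ((m : ℝ) + 1)⌉₊ : ℕ) : ℝ) := by exact_mod_cast h1
  linarith

/-- The Waldschmidt constant exists, and lower bounds pass to it. -/
theorem exists_wald (P : Fin r → Fin 2 → k) {c : ℝ}
    (hc : ∀ m : ℕ, 0 < m → c * m ≤ alp P m) :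
    ∃ e : ℝ, Tendsto (fun m : ℕ => (alp P m : ℝ) / m) atTop (𝓝 e) ∧ c ≤ e ∧
      e ≤ Real.sqrt r := by
  have hsub : Subadditive (fun m : ℕ => (alp P m : ℝ)) := by
    intro m n
    have := alp_le (hasForm_mul (hasForm_alp P m) (hasForm_alp P n))
    show (alp P (m + n) : ℝ) ≤ alp P m + alp P n
    exact_mod_cast this
  have hbdd : BddBelow (Set.range fun n : ℕ => (alp P n : ℝ) / n) := by
    refine ⟨0, ?_⟩
    rintro _ ⟨n, rfl⟩
    show 0 ≤ (alp P n : ℝ) / n
    positivity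
  have hlim := hsub.tendsto_lim hbdd
  refine ⟨hsub.lim, hlim, ?_, ?_⟩
  · refine ge_of_tendsto hlim ?_
    filter_upwards [eventually_gt_atTop 0] with m hm
    have hmR : (0 : ℝ) < m := by exact_mod_cast hm
    rw [le_div_iff₀ hmR]
    exact hc m hm
  · have h2 : Tendsto (fun m : ℕ => Real.sqrt r + (Real.sqrt r + 1) / (m : ℝ)) atTop
        (𝓝 (Real.sqrt r + 0)) :=
      tendsto_const_nhds.add (tendsto_const_div_atTop_nhds_zero_nat _)
    rw [add_zero] at h2
    refine le_of_tendsto_of_tendsto hlim h2 ?_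
    filter_upwards [eventually_gt_atTop 0] with m hm
    have hmR : (0 : ℝ) < m := by exact_mod_cast hm
    rw [div_le_iff₀ hmR]
    have h3 := alp_le_sqrt P m
    have h4 : (Real.sqrt r + (Real.sqrt r + 1) / (m : ℝ)) * m = Real.sqrt r * (m + 1) + 1 := by
      field_simp
      ring
    rw [h4]
    exact h3

/-- The numerical consequence of the emptiness theorem. -/
theorem wald_main (q : ℕ) : ∃ N : ℕ, ∀ (k : Type u) [Field k] [IsAlgClosed k] (r : ℕ), N ≤ r →
    ∀ P : Fin r → Fin 2 → k,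
      AlgebraicIndependent (⊥ : Subfield k) (fun ij : Fin r × Fin 2 => P ij.1 ij.2) →
      (∀ m : ℕ, 0 < m → m ≤ r ^ q → (m : ℝ) * Real.sqrt r ≤ alp P m) ∧
      ∀ m : ℕ, 0 < m → (m : ℝ) * Real.sqrt r ≤ (1 + 1 / (r : ℝ) ^ q) * alp P m := by
  obtain ⟨N, hN1, hN⟩ := exists_consts 1 ((1 + 1) * (q + 1) + (q + 1) + 2)
  refine ⟨N + 8, fun k _ _ r hr P hP => ?_⟩
  have hr0 : 0 < r := by omega
  have hrR : (0 : ℝ) < r := by exact_mod_cast hr0
  have hr1 : (1 : ℝ) ≤ r := by exact_mod_cast hr0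
  have hs0 : 0 < Real.sqrt r := Real.sqrt_pos.2 hrR
  have hss : Real.sqrt r * Real.sqrt r = r := Real.mul_self_sqrt hrR.le
  have hL : Real.sqrt r ^ (1 + 1) = (r : ℝ) := by
    rw [pow_succ, pow_one, hss]
  obtain ⟨hL1, μ, ν, hμ1, -, -, hμE, -, hrat, -⟩ := hN r (by omega) (Real.sqrt r) hs0 hL
  have hkey : ∀ m : ℕ, ∀ d : ℕ, HasForm P m d → ¬ μ ^ 1 * Real.sqrt r ^ 1 * d <
      ((r * m : ℕ) : ℝ) := by
    intro m d hF hlt
    have hsum : ∑ _i : Fin r, m = r * m := by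
      rw [Finset.sum_const, Finset.card_univ, Fintype.card_fin, smul_eq_mul]
    have h1 : EmptyAt (fun _ : Fin r => m) P d :=
      emptyAt_generic (E := 1) (w := fun _ : Fin r => m) hP hrat hL1 hμ1 hL
        (by rw [hsum]; exact hlt)
    exact (hasForm_iff P m d).1 hF h1.bot
  refine ⟨fun m hm hmq => ?_, fun m hm => ?_⟩
  · by_contra hcon
    push Not at hcon
    have hmR : (0 : ℝ) < m := by exact_mod_cast hm
    refine hkey m _ (hasForm_alp P m) (exact_cond (E := 1) (q := q + 1) hL1 hL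
      (by norm_num; omega) hμ1 hμE ?_ ?_)
    · rw [pow_succ, mul_comm]
      exact Nat.mul_le_mul_right r hmq
    · have h1 := mul_self_lt_mul_self (Nat.cast_nonneg (alp P m)) hcon
      have h2 : (m : ℝ) * Real.sqrt r * (m * Real.sqrt r) = r * (m : ℝ) ^ 2 := by
        calc (m : ℝ) * Real.sqrt r * (m * Real.sqrt r) =
            (Real.sqrt r * Real.sqrt r) * (m : ℝ) ^ 2 := by ring
          _ = _ := by rw [hss]
      rw [h2] at h1
      have h3 : alp P m * alp P m < r * m ^ 2 := by exact_mod_cast h1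
      calc r ^ 1 * alp P m ^ (1 + 1) = r * (alp P m * alp P m) := by ring
        _ < r * (r * m ^ 2) := Nat.mul_lt_mul_of_pos_left h3 hr0
        _ = (r * m) ^ (1 + 1) := by ring
  · have h1 := not_lt.1 (hkey m _ (hasForm_alp P m))
    rw [pow_one, pow_one] at h1
    push_cast at h1
    rw [pow_one] at hμE
    have h2 : Real.sqrt r * ((m : ℝ) * Real.sqrt r) ≤ Real.sqrt r * (μ * alp P m) := by
      calc Real.sqrt r * ((m : ℝ) * Real.sqrt r) = (Real.sqrt r * Real.sqrt r) * m := by ring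
        _ = r * m := by rw [hss]
        _ ≤ μ * Real.sqrt r * alp P m := h1
        _ = _ := by ring
    have h3 := le_of_mul_le_mul_left h2 hs0
    refine h3.trans (mul_le_mul_of_nonneg_right ?_ (Nat.cast_nonneg _))
    have h4 : 1 / (r : ℝ) ^ ((1 + 1) * (q + 1) + (q + 1) + 2) ≤ 1 / (r : ℝ) ^ q :=
      one_div_le_one_div_of_le (by positivity) (pow_le_pow_right₀ hr1 (by omega))
    linarith

end Pool.Agent.H519R3.AC
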